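import Pool.Agent.H22.Leav1

set_option autoImplicit false

namespace Pool.Agent.Results.MP_26bbbf_al.Leavitt

open H22.Leav

section Defs
variable {G R : Type} [AddGroup G] [Ring R] (A : G → AddSubgroup R)

/-- `R` is the direct sum of the `A g`, and `A g * A h = A (g + h)` as additive spans. -/
def StronglyGraded : Prop :=
  iSupIndep A ∧ ⨆ g, A g = ⊤ ∧
    ∀ g h, AddSubgroup.closure {z | ∃ x ∈ A g, ∃ y ∈ A h, z = x * y} = A (g + h)

/-- the sum of the components indexed by `H` -/
def part (H : Set G) : AddSubgroup R := ⨆ h ∈ H, A h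

/-- sub-bimodules of `R` over the identity component -/
def IsSubBimodule (N : AddSubgroup R) : Prop := ∀ a ∈ A 0, ∀ x ∈ N, a * x ∈ N ∧ x * a ∈ N

/-- controlled grading -/
def Controlled : Prop :=
  Set.BijOn (part A) Set.univ {N | IsSubBimodule A N} ∧
    ∀ S T : Set G, (∃ f : part A S ≃+ part A T, ∀ a ∈ A 0, ∀ x y : part A S,
      ((y : R) = a * x → (f y : R) = a * f x) ∧ ((y : R) = x * a → (f y : R) = f x * a)) → S = T

end Defs

abbrev L := AddMonoidAlgebra E ℤ

noncomputable def RS : @Subring L Ring.toNonAssocRing where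
  carrier := {p | ∀ d, p.coeff d ∈ W d}
  zero_mem' := fun d => (W d).zero_mem
  add_mem' := fun hp hq d => by simpa using (W d).add_mem (hp d) (hq d)
  neg_mem' := fun hp d => by simpa using (W d).neg_mem (hp d)
  one_mem' := fun d => by
    rw [AddMonoidAlgebra.one_def, AddMonoidAlgebra.coeff_single, Finsupp.single_apply]
    split_ifs with h
    · exact W_cast one_mem h
    · exact (W d).zero_mem
  mul_mem' := by
    classical
    intro p q hp hq d
    rw [AddMonoidAlgebra.coeff_mul]
    refine (W d).sum_mem fun a _ => (W d).sum_mem fun b _ => ?_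
    dsimp only
    split_ifs with h
    · exact W_cast (W_mul (hp a) (hq b)) h
    · exact (W d).zero_mem

def RR : Type := RS

noncomputable instance : Ring RR := Subring.toRing RS

def co (d : ℤ) : RR →+ E where
  toFun p := p.1.coeff d
  map_zero' := rfl
  map_add' _ _ := rfl

noncomputable def sg (d : ℤ) (T : E) (h : T ∈ W d) : RR := ⟨AddMonoidAlgebra.single d T, fun e => by
  rw [AddMonoidAlgebra.coeff_single, Finsupp.single_apply]
  split_ifs with h'
  · exact W_cast h h'
  · exact (W e).zero_mem⟩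

theorem co_sg (d e : ℤ) (T : E) (h : T ∈ W d) : co e (sg d T h) = if d = e then T else 0 := by
  show (AddMonoidAlgebra.single d T).coeff e = _
  rw [AddMonoidAlgebra.coeff_single, Finsupp.single_apply]

theorem ext' {p q : RR} (h : ∀ d, co d p = co d q) : p = q :=
  Subtype.ext (AddMonoidAlgebra.ext (Finsupp.ext h))

theorem co_l (d e : ℤ) (T : E) (h : T ∈ W d) (p : RR) : co e (sg d T h * p) = T * co (-d + e) p :=
  AddMonoidAlgebra.coeff_single_mul_apply p.1 T d e

theorem co_r (d e : ℤ) (T : E) (h : T ∈ W d) (p : RR) : co e (p * sg d T h) = co (e + -d) p * T :=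
  AddMonoidAlgebra.coeff_mul_single_apply p.1 T d e

def Sup (H : Set ℤ) : AddSubgroup RR where
  carrier := {p | ∀ e, e ∉ H → co e p = 0}
  zero_mem' := fun _ _ => rfl
  add_mem' := fun hp hq e he => by rw [map_add, hp e he, hq e he, add_zero]
  neg_mem' := fun hp e he => by rw [map_neg, hp e he, neg_zero]

def A (d : ℤ) : AddSubgroup RR := Sup {d}

noncomputable def cp (d : ℤ) (p : RR) : RR := sg d (co d p) (p.2 d)

theorem sg_mem (d : ℤ) (T : E) (h : T ∈ W d) : sg d T h ∈ A d := fun e he => by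
  rw [co_sg, if_neg (Ne.symm he)]

theorem eq_cp {d : ℤ} {p : RR} (h : p ∈ A d) : p = cp d p := ext' fun e => by
  rw [cp, co_sg]
  split_ifs with h'
  · rw [h']
  · exact h e (Ne.symm h')

theorem sum_cp (p : RR) : p = ∑ d ∈ p.1.coeff.support, cp d p := ext' fun e => by
  rw [map_sum]
  simp only [cp, co_sg]
  rw [Finset.sum_ite_eq']
  split_ifs with h
  · rfl
  · exact Finsupp.notMem_support_iff.mp h

theorem part_eq (H : Set ℤ) : part A H = Sup H := by
  apply le_antisymm
  · exact iSup₂_le fun d hd p hp e he => hp e fun h => he (h ▸ hd)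
  · intro p hp
    rw [sum_cp p]
    refine sum_mem fun d hd => ?_
    have : d ∈ H := by_contra fun h => Finsupp.mem_support_iff.mp hd (hp d h)
    exact (le_iSup₂_of_le (f := fun h (_ : h ∈ H) => A h) d this le_rfl) (sg_mem _ _ _)

theorem mulA {d e : ℤ} {p q : RR} (hp : p ∈ A d) (hq : q ∈ A e) : p * q ∈ A (d + e) := fun k hk => by
  rw [eq_cp hp, cp, co_l, hq _ (fun h => hk (by simp only [Set.mem_singleton_iff] at h ⊢; omega)),
    mul_zero]

theorem strong : StronglyGraded A := by
  refine ⟨?_, ?_, fun g h => le_antisymm ?_ ?_⟩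
  · intro d
    rw [disjoint_iff, eq_bot_iff]
    rintro p ⟨h1, h2⟩
    have h3 : p ∈ Sup {d}ᶜ := by rw [← part_eq]; exact h2
    refine ext' fun e => ?_
    by_cases he : e = d
    · exact h3 e (by simp [he])
    · exact h1 e he
  · rw [eq_top_iff]
    intro p _
    rw [sum_cp p]
    exact sum_mem fun d _ => (le_iSup A d) (sg_mem _ _ _)
  · rw [AddSubgroup.closure_le]
    rintro _ ⟨x, hx, y, hy, rfl⟩
    exact mulA hx hy
  · intro p hp
    obtain ⟨ι, _, a, b, ha, hb, e⟩ := one_eq g
    have : p = ∑ i, sg g (a i) (ha i) * (sg (-g) (b i) (hb i) * p) := ext' fun k => by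
      rw [map_sum]
      simp only [co_l]
      simp only [← mul_assoc, ← Finset.sum_mul, e, one_mul]
      rw [show - -g + (-g + k) = k by omega]
    rw [this]
    refine sum_mem fun i _ => AddSubgroup.subset_closure ⟨_, sg_mem _ _ _, _, ?_, rfl⟩
    have := mulA (sg_mem _ _ (hb i)) hp
    rwa [neg_add_cancel_left] at this

theorem sub_Sup (H : Set ℤ) : IsSubBimodule A (Sup H) := fun a ha p hp => by
  rw [eq_cp ha, cp]
  refine ⟨fun e he => ?_, fun e he => ?_⟩
  · rw [co_l, neg_zero, zero_add, hp e he, mul_zero]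
  · rw [co_r, neg_zero, add_zero, hp e he, zero_mul]

theorem ex_ne (d : ℤ) : ∃ (m n : ℕ), (m : ℤ) = n + d := ⟨d.toNat, (-d).toNat, by omega⟩

theorem XY_mem {m n : ℕ} {d : ℤ} (h : (m : ℤ) = n + d) (u : Fin m → Bool) (v : Fin n → Bool) :
    X m u * Y n v ∈ W d := W_cast (W_mul (X_mem m u) (Y_mem n v)) (by omega)

theorem sand {m n : ℕ} (u : Fin m → Bool) (v : Fin n → Bool) (Z : E) :
    Y m u * (X m u * Z * Y n v) * X n v = Z := by
  simp only [← mul_assoc, YX1, one_mul]
  rw [mul_assoc, YX1, mul_one]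

theorem XY_ne {m n : ℕ} (u : Fin m → Bool) (v : Fin n → Bool) : X m u * Y n v ≠ 0 := fun h => by
  have := sand u v 1
  rw [mul_one, h] at this
  simp at this

theorem core' {m n : ℕ} {d e : ℤ} (h : (m : ℤ) = n + d) (u : Fin m → Bool) (v : Fin n → Bool)
    {T : E} (hT : T ∈ W e) (h0 : X m u * 1 * Y m u * T * (X n v * 1 * Y n v) ≠ 0)
    (hc : ∀ a ∈ W 0, X m u * a * Y m u * T * (X n v * 1 * Y n v)
      = X m u * 1 * Y m u * T * (X n v * a * Y n v)) : e = d := by
  have h1 : Y m u * T * X n v ∈ W (e - d) :=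
    W_cast (W_mul (W_mul (Y_mem m u) hT) (X_mem n v)) (by omega)
  have := core h1 (fun h => h0 (by
    have : X m u * 1 * Y m u * T * (X n v * 1 * Y n v) = X m u * (Y m u * T * X n v) * Y n v := by
      simp only [mul_one, mul_assoc]
    rw [this, h, mul_zero, zero_mul])) (fun a ha => by
    have h2 : X m u * (a * (Y m u * T * X n v)) * Y n v
        = X m u * ((Y m u * T * X n v) * a) * Y n v := by
      have := hc a ha
      simpa only [mul_one, mul_assoc] using this
    rw [← sand u v (a * _), h2, sand])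
  omega

theorem simpleA {N : AddSubgroup RR} (hN : IsSubBimodule A N) {d : ℤ} {p : RR} (hp : cp d p ∈ N)
    (h0 : co d p ≠ 0) (q : RR) : cp d q ∈ N := by
  let P : AddSubgroup E := (N ⊓ A d).map (co d)
  have hP : ∀ a ∈ W 0, ∀ t ∈ P, a * t ∈ P ∧ t * a ∈ P := by
    rintro a ha _ ⟨t, ⟨h1, h2⟩, rfl⟩
    exact ⟨⟨_, ⟨(hN _ (sg_mem 0 a ha) t h1).1, (sub_Sup _ _ (sg_mem 0 a ha) t h2).1⟩, by
      rw [co_l, neg_zero, zero_add]⟩, ⟨_, ⟨(hN _ (sg_mem 0 a ha) t h1).2,
        (sub_Sup _ _ (sg_mem 0 a ha) t h2).2⟩, by rw [co_r, neg_zero, add_zero]⟩⟩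
  obtain ⟨t, ⟨h1, h2⟩, e⟩ := simple P hP (p.2 d) h0 ⟨cp d p, ⟨hp, sg_mem _ _ _⟩, by
    rw [cp, co_sg, if_pos rfl]; rfl⟩ (q.2 d)
  have : cp d q = t := by
    rw [eq_cp h2]
    exact ext' fun k => by simp only [cp, co_sg]; rw [e]; rfl
  rw [this]; exact h1

theorem comp_mem {N : AddSubgroup RR} (hN : IsSubBimodule A N) (k : ℕ) :
    ∀ p ∈ N, p.1.coeff.support.card ≤ k → ∀ d, cp d p ∈ N := by
  classical
  induction k with
  | zero =>
    intro p hp h d
    have h1 : p.1.coeff = 0 := Finsupp.support_eq_empty.mp (Finset.card_eq_zero.mp (by omega))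
    have h2 : co d p = 0 := by show p.1.coeff d = 0; rw [h1]; rfl
    have : cp d p = 0 := ext' fun e => by rw [cp, co_sg, h2, ite_self, map_zero]
    rw [this]; exact N.zero_mem
  | succ k ih =>
    intro p hp h
    have drop : ∀ q ∈ N, (∀ e, co e p = 0 → co e q = 0) → ∀ d, co d p ≠ 0 → co d q = 0 →
        ∀ e, cp e q ∈ N := by
      intro q hq h1 d h2 h3
      refine ih q hq ?_
      have : q.1.coeff.support ⊆ p.1.coeff.support.erase d := fun e he => by
        rw [Finset.mem_erase, Finsupp.mem_support_iff] at *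
        exact ⟨fun h => he (h ▸ h3), fun h => he (h1 e h)⟩
      have h4 := Finset.card_le_card this
      rw [Finset.card_erase_of_mem (Finsupp.mem_support_iff.mpr h2)] at h4
      omega
    by_contra hd
    push Not at hd
    obtain ⟨e, he⟩ := hd
    have he0 : co e p ≠ 0 := fun h0 => he (by
      have : cp e p = 0 := ext' fun k => by rw [cp, co_sg, h0, ite_self, map_zero]
      rw [this]; exact N.zero_mem)
    have hex : ∃ d, d ≠ e ∧ co d p ≠ 0 := by
      by_contra hc
      push Not at hc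
      exact he (eq_cp (d := e) (p := p) hc ▸ hp)
    obtain ⟨d, hde, hd0⟩ := hex
    have hdN : cp d p ∉ N := fun hdN => by
      have := drop (p - cp d p) (N.sub_mem hp hdN) (fun k hk => by
        rw [map_sub, cp, co_sg]; split_ifs with h'
        · rw [h', sub_self]
        · rw [hk, sub_zero]) d hd0 (by rw [map_sub, cp, co_sg, if_pos rfl, sub_self]) e
      exact he (simpleA hN this (by rw [map_sub, cp, co_sg, if_neg hde, sub_zero]; exact he0) p)
    obtain ⟨m, n, hmn, hl⟩ := p.2 d
    obtain ⟨u, v, c, hc, e1⟩ := entry hl hd0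
    have hq : ∀ a (ha : a ∈ W 0) b (hb : b ∈ W 0),
        sg 0 _ (XaY u u ha) * p * sg 0 _ (XaY v v hb) ∈ N := fun a ha b hb =>
      (hN _ (sg_mem _ _ _) _ (hN _ (sg_mem _ _ _) _ hp).1).2
    have hco : ∀ a (ha : a ∈ W 0) b (hb : b ∈ W 0) k,
        co k (sg 0 _ (XaY u u ha) * p * sg 0 _ (XaY v v hb))
          = X m u * a * Y m u * co k p * (X n v * b * Y n v) := fun a ha b hb k => by
      rw [co_r, co_l, neg_zero, add_zero, zero_add]
    have hdd : ∀ a b : E, X m u * a * Y m u * co d p * (X n v * b * Y n v)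
        = c • (X m u * (a * b) * Y n v) := fun a b => by
      have : X m u * a * Y m u * co d p * (X n v * b * Y n v)
          = X m u * a * (Y m u * p.1.coeff d * X n v) * b * Y n v := by
        simp only [mul_assoc]; rfl
      rw [this, e1, Algebra.algebraMap_eq_smul_one]
      simp only [mul_smul_comm, smul_mul_assoc, mul_one, mul_assoc, one_mul]
    refine hde (core' hmn u v (p.2 e) (fun h0 => ?_) (fun a ha => ?_)).symm
    · have := drop _ (hq 1 one_mem 1 one_mem) (fun k hk => by rw [hco 1 one_mem 1 one_mem, hk, mul_zero, zero_mul]) e he0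
        (by rw [hco 1 one_mem 1 one_mem]; exact h0) d
      refine hdN (simpleA hN this ?_ p)
      rw [hco 1 one_mem 1 one_mem, hdd, mul_one, mul_one]
      exact smul_ne_zero hc (XY_ne u v)
    · by_contra hne
      have := drop _ (N.sub_mem (hq a ha 1 one_mem) (hq 1 one_mem a ha))
        (fun k hk => by
          rw [map_sub, hco a ha 1 one_mem, hco 1 one_mem a ha, hk, mul_zero, mul_zero, zero_mul,
            zero_mul, sub_self]) d hd0
        (by rw [map_sub, hco a ha 1 one_mem, hco 1 one_mem a ha, hdd, hdd, mul_one a, one_mul a, sub_self]) e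
      exact he (simpleA hN this (by
        rw [map_sub, hco a ha 1 one_mem, hco 1 one_mem a ha, sub_ne_zero]; exact hne) p)

theorem sub_of_hom {S T : Set ℤ} (f : part A S →+ part A T) (hf : Function.Injective f)
    (h : ∀ a ∈ A 0, ∀ x y : part A S,
      ((y : RR) = a * x → (f y : RR) = a * f x) ∧ ((y : RR) = x * a → (f y : RR) = f x * a)) :
    S ⊆ T := by
  intro d hd
  obtain ⟨m, n, hmn⟩ := ex_ne d
  let u : Fin m → Bool := default
  let v : Fin n → Bool := default
  have hm : ∀ a (ha : a ∈ W 0), X m u * a * Y n v ∈ W d := fun a ha =>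
    W_cast (W_mul (W_mul (X_mem m u) ha) (Y_mem n v)) (by omega)
  let z : ∀ a, a ∈ W 0 → part A S := fun a ha => ⟨sg d _ (hm a ha), by
    rw [part_eq]; exact fun e he => sg_mem _ _ _ e fun h => he (h ▸ hd)⟩
  have l : ∀ a ha k, co k (f (z a ha)) = X m u * a * Y m u * co k (f (z 1 one_mem)) := fun a ha k => by
    rw [(h _ (sg_mem 0 _ (XaY u u ha)) (z 1 one_mem) (z a ha)).1 (ext' fun j => by
      simp only [z, co_l, co_sg, neg_zero, zero_add]
      split_ifs
      · simp only [mul_one, mul_assoc, ← mul_assoc (Y m u), YX1, one_mul]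
      · rw [mul_zero]), co_l, neg_zero, zero_add]
  have r : ∀ a ha k, co k (f (z a ha)) = co k (f (z 1 one_mem)) * (X n v * a * Y n v) := fun a ha k => by
    rw [(h _ (sg_mem 0 _ (XaY v v ha)) (z 1 one_mem) (z a ha)).2 (ext' fun j => by
      simp only [z, co_r, co_sg, neg_zero, add_zero]
      split_ifs
      · simp only [mul_one, mul_assoc, ← mul_assoc (Y n v), YX1, one_mul]
      · rw [zero_mul]), co_r, neg_zero, add_zero]
  have h0 : ∃ e, co e (f (z 1 one_mem)) ≠ 0 := by
    by_contra hc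
    push Not at hc
    have h1 : f (z 1 one_mem) = 0 := Subtype.ext (ext' hc)
    have h2 := congrArg (fun t : part A S => co d t) (hf (h1.trans (map_zero f).symm))
    simp only [z, co_sg, if_pos, mul_one] at h2
    exact XY_ne u v h2
  obtain ⟨e, he⟩ := h0
  have hT : e ∈ T := by
    by_contra hc
    exact he ((part_eq T).le (f (z 1 one_mem)).2 e hc)
  have : e = d := core' hmn u v ((f (z 1 one_mem)).1.2 e) (by
      show X m u * 1 * Y m u * co e _ * _ ≠ 0
      rw [← l 1 one_mem, ← r 1 one_mem]; exact he) (fun a ha => by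
      show X m u * a * Y m u * co e _ * _ = X m u * 1 * Y m u * co e _ * _
      rw [← l 1 one_mem, ← r a ha, mul_assoc _ (co e _), ← r 1 one_mem, ← l a ha])
  exact this ▸ hT

theorem iso_eq (S T : Set ℤ) (h : ∃ f : part A S ≃+ part A T, ∀ a ∈ A 0, ∀ x y : part A S,
      ((y : RR) = a * x → (f y : RR) = a * f x) ∧ ((y : RR) = x * a → (f y : RR) = f x * a)) :
    S = T := by
  obtain ⟨f, hf⟩ := h
  refine (sub_of_hom f.toAddMonoidHom f.injective hf).antisymm
    (sub_of_hom f.symm.toAddMonoidHom f.symm.injective fun a ha x y => ?_)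
  have hs := sub_Sup S a ha _ ((part_eq S).le (f.symm x).2)
  rw [← part_eq] at hs
  refine ⟨fun e => ?_, fun e => ?_⟩
  · have h1 := (hf a ha (f.symm x) ⟨_, hs.1⟩).1 rfl
    rw [f.apply_symm_apply, ← e] at h1
    show ((f.symm y : part A S) : RR) = a * f.symm x
    rw [← Subtype.ext h1, f.symm_apply_apply]
  · have h1 := (hf a ha (f.symm x) ⟨_, hs.2⟩).2 rfl
    rw [f.apply_symm_apply, ← e] at h1
    show ((f.symm y : part A S) : RR) = f.symm x * a
    rw [← Subtype.ext h1, f.symm_apply_apply]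

theorem iso_of_eq {R : Type} [Ring R] (B P Q : AddSubgroup R) (h : P = Q) :
    ∃ f : P ≃+ Q, ∀ a ∈ B, ∀ x y : P,
      ((y : R) = a * x → (f y : R) = a * f x) ∧ ((y : R) = x * a → (f y : R) = f x * a) := by
  subst h
  exact ⟨AddEquiv.refl _, fun a _ x y => ⟨id, id⟩⟩

theorem onto (N : AddSubgroup RR) (hN : IsSubBimodule A N) : part A {d | ∀ q, cp d q ∈ N} = N := by
  rw [part_eq]
  apply le_antisymm
  · intro p hp
    rw [sum_cp p]
    refine sum_mem fun d hd => ?_
    by_contra hc
    exact Finsupp.mem_support_iff.mp hd (hp d fun h => hc (h p))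
  · intro p hp e he
    by_contra h0
    exact he (simpleA hN (comp_mem hN _ p hp le_rfl e) h0)

theorem controlled : Controlled A := by
  refine ⟨⟨fun H _ => by rw [part_eq]; exact sub_Sup H, fun S _ T _ h => ?_, fun N hN => ?_⟩, iso_eq⟩
  · exact iso_eq S T (iso_of_eq _ _ _ h)
  · exact ⟨_, trivial, onto N hN⟩

/-- A strongly `ℤ`-graded controlled ring whose nonzero-degree components contain no unit. -/
theorem result : ∃ (R : Type) (_ : Ring R) (A : ℤ → AddSubgroup R),
    StronglyGraded A ∧ Controlled A ∧ ∀ g, g ≠ 0 → ∀ u ∈ A g, ¬ IsUnit u := by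
  refine ⟨RR, inferInstance, A, strong, controlled, fun g hg u hu hU => hg ?_⟩
  obtain ⟨q, h1, h2⟩ := isUnit_iff_exists.mp hU
  have e1 := congrArg (co 0) h1
  have e2 := congrArg (co 0) h2
  rw [eq_cp hu, cp, co_l, add_zero] at e1
  rw [eq_cp hu, cp, co_r, zero_add] at e2
  have e0 : co 0 1 = 1 := (co_sg 0 0 1 one_mem).trans (if_pos rfl)
  exact nounit (u.2 g) (q.2 (-g)) (e1.trans e0) (e2.trans e0)

end Pool.Agent.Results.MP_26bbbf_al.Leavitt
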